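import Pool.Agent.N631.SX.EMain3

/-!
# Set intersection queries: cells made from exclusive ors of emptiness answers and protocols

A family of `2 k` subsets of a universe with `u` elements, of total size at most `N`, is
preprocessed: the sets `X i` of the first half and the sets `Y j` of the second half. A query `(i, j)`
asks whether `X i` and `Y j` intersect (a structure which lists the intersections in time
`C (T + op)` also tells this, in time `C T`: stop after this time and say that the sets intersect).
The data structures of the theorem (`ECell`) consist of cells. The content of every cell (an element
of any set `Γ`) is an arbitrary function of `r` bits and of the `d` bits of a protocol of two players,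
who know one half of the family each. Every one of the `r` bits is the exclusive or of

* the answers to the queries in any set `P` of pairs `(i, j)` (any size, fixed in advance),
* an arbitrary function of the first half of the family,
* an arbitrary function of the second half of the family.

So a cell can be an arbitrary function of any `r` answers, or a word with `w = r` such bits, or the
result of any joint computation of the two players with `d` bits of communication. The queries are
adaptive and may be computed in any way. The data structure may be random; for all families of total
size at most `N` and all `(i, j)` it has to read at most `t` cells and to answer correctly with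
probability at least `1 / 2 + δ`. Only the `s` cells in which answers enter (some `P` is not empty)
count as space; the cells which are computed by protocols are free. We show

  `δ ^ 10 * N ^ 2 ≤ 10 ^ 22 * ((r + d) * t) ^ 4 * (r * s + 1)`.

So in this model, for constant `δ`, space `N ^ (2 - ε)` requires `(r + d) t` to be at least about
`N ^ (ε / 5)` (`N ^ (ε / 4)` for constant `r`), and polylogarithmic query time
requires space `Ω~(N ^ 2)`, as in the conjecture (words of polylogarithmic length).
The model contains the table of the answers, all linear codes and compressions of it over the field
with two elements, all codes in which every cell depends on few answers, and any representation of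
each of the two halves. For the families of the theorem (`k ≤ N / (400 (r + d) t)`) the table of all
answers has `k ^ 2 ≤ (N / (400 (r + d) t)) ^ 2` bits, and the query reads one of them.

Proof. A cell is read with `r + d` probes of bits which are exclusive ors of answers and of functions
of one half: the `r` bits and the messages of the players. So let all cells be such bits; take first
the probability `99 / 100`. Let `m = 1400 t`, `q = 100 t`, `u = m ^ 2 + 2 (q + 1)`, and
`k = N / (4 (q + 2))`. For the query `(i, j)` we use random families: on the first part of the universe
(`m ^ 2` elements) only `X i` and `Y j` have elements, independently with probability `1 / m`. On the
second part (`q + 1` elements) the `X i'` are uniformly random and the `Y j'` are random single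
elements, on the third part it is the other way round, but the parts of `X i` and `Y j` do not meet
there. If the set `P` of an exclusive or contains pairs in at least `q` columns `j' ≠ j` (or rows
`i' ≠ i`) then it has discrepancy at most `(7 / 10) ^ (q / 2)` (Cauchy and Schwarz, the random bit of
`Y j'` at the position of the single element of `X i'`, and the inequality between the arithmetic and
geometric means, which reduces the product over the columns to one column). The indicator of a leaf of
the decision tree is the average of the signs of the exclusive ors of the bits on the path; those
which are not in the span of the light ones (at most `q ^ 2` pairs) are negligible. If no light one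
contains `(i, j)` then, for fixed other parts of the family, there remains the indicator of a union of
`2 ^ t` rectangles in the space of the pairs of subsets of the first part, and by the two-point
inequality of `Pool.Agent.W959` in each large rectangle a constant fraction of the pairs of sets
intersect, so the error is more than `1 / 80`. By linear algebra there are at most `s q ^ 2` pairs
`(i, j)` for which the span of the sets `P` contains a light vector with the pair `(i, j)`, and so
`k ^ 2 ≤ 5 s q ^ 2`. For a small advantage, `O(1 / δ ^ 2)` independent copies of the structure and the
majority of their answers give a structure of the same kind with probability `99 / 100`.
-/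

set_option autoImplicit false

namespace Pool.Agent.Results.MP_f326ae_lc.EmptinessTables

open Pool.Agent.N631.SX

/-- For all `N`, `r, t ≥ 1`, `d` and `0 < δ ≤ 1 / 2` there are `k ≤ N / (400 (r + d) t)` and
`u ≤ 10 ^ 10 ((r + d) t) ^ 2 / δ ^ 4` such that every random data structure, in which the content of
every cell is an arbitrary function of `r` exclusive ors of emptiness answers, of a function of the
first half and of a function of the second half, and of the `d` bits of a protocol between the two
halves, in which answers enter at most `s` cells, and which decides for all families of `2 k` subsets of
a universe with `u` elements of total size at most `N` and for all queries, reading at most `t` cells,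
whether the two sets intersect, with probability at least `1 / 2 + δ`, satisfies
`δ ^ 10 * N ^ 2 ≤ 10 ^ 22 * ((r + d) * t) ^ 4 * (r * s + 1)`. -/
theorem result (N r d t : ℕ) (hr : 1 ≤ r) (ht : 1 ≤ t) (δ : ℝ) (hδ : 0 < δ) (hδ2 : δ ≤ 1 / 2) :
    ∃ k u : ℕ, 400 * ((r + d) * t) * k ≤ N ∧
      δ ^ 4 * (u : ℝ) ≤ 10 ^ 10 * (((r : ℝ) + d) * t) ^ 2 ∧
      ∀ (c s : ℕ) (Γ Ω : Type) [Fintype Ω] (p : Ω → ℝ) (D : Ω → ECell k u c r d Γ),
        (∀ ω, (D ω).space ≤ s) → ECellSolves N p D t δ →
        δ ^ 10 * (N : ℝ) ^ 2 ≤ 10 ^ 22 * (((r : ℝ) + d) * t) ^ 4 * (r * s + 1) :=
  e_main3 N t r d ht hr δ hδ hδ2

end Pool.Agent.Results.MP_f326ae_lc.EmptinessTables
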