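import Pool.Agent.N631.LX.Main

/-!
# Set intersection queries: linear data structures need space `N ^ 2 / t ^ 8`

A family of `2 k` subsets of a universe with `u` elements, `2 k u ≤ N` (so of total size at most
`N`), is preprocessed: the sets `X i` of the first half and the sets `Y j` of the second half. The
memory consists of bits. Every bit is the exclusive or of

* any set `P` of bits of answers: the bit `(i, j, e)` says whether the element `e` is in
  `X i ∩ Y j`; here `P` may contain bits of the answers of arbitrarily many queries `(i, j)`,
* an arbitrary function of the first half of the family,
* an arbitrary function of the second half of the family.

A query `(i, j)` reads adaptively at most `t` bits and tells whether `X i` and `Y j` intersect. The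
data structure may be random and may err with probability `1 / 400`. Only the `s` bits with
`P ≠ ∅` count as space; any separate preprocessing of the two halves is free. We show

  `N ^ 2 ≤ 10 ^ 15 * t ^ 8 * (s + 1)`.

So in this model subquadratic space `N ^ (2 - ε)` requires query time `N ^ (ε / 8 - o(1))`, also if
words of `w` bits are read (`T` probes of words are `t = w T` probes of bits), and polylogarithmic
query time requires space `Ω~(N ^ 2)`, as in the conjecture. The model contains the tables of the
answers (as bit vectors), all linear sketches of the answers (for instance the parities of
`|X i ∩ Y j ∩ R|` for random sets `R`, which decide emptiness with `O(1)` bits for each query, so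
that space `O (k ^ 2)` is possible) and all linear codes and compressions of them (exclusive ors of
answers of many different queries), and hash tables for the single sets.

Proof. Let `m = 1400 t ^ 2`, `u = m ^ 2`. For the query `(i, j)` let `X i` and `Y j` contain every
element with probability `1 / m`, and let all other sets be uniformly random. The indicator of the
event that the memory leads to a leaf of the decision tree is the average of the signs of all
exclusive ors of the bits on the path. If the total set `P` of such an exclusive or contains at more
than `r = 2 m (t + 12)` elements `e` bits `(i', j', e)` with `(i', j') ≠ (i, j)` then its discrepancy
is at most `exp (-(t + 12))`, also together with the indicator of the event that `X i` and `Y j` are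
disjoint: the norms of the kernels for the single elements are multiplied. The other exclusive ors
span a space; for fixed other sets and fixed values at the at most `t r + u / 4 ≤ u / 2` elements
`e` at which its generators contain `(i, j, e)`, they are sums of a function of `X i` and a
function of `Y j`, so they split the space of the pairs into `2 ^ t` rectangles, and the two-point
inequality of `Pool.Agent.W959` shows that in each large rectangle a constant fraction of the pairs
intersect. This works if there are at most `u / 4` elements `e` for which the span of the sets `P`
has a vector which contains at `e` only the pair `(i, j)`; and by linear algebra (for each element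
`e`) this holds for all but `4 s` of the `k ^ 2` queries.
-/

set_option autoImplicit false

namespace Pool.Agent.Results.MP_f326ae_lc.LinearTables

open Pool.Agent.N631.LX

/-- For all `N` and `t ≥ 1` there are `k` and `u` with `2 k u ≤ N` such that every random linear
data structure which decides for all families of `2 k` subsets of a universe with `u` elements and
for all queries, reading at most `t` bits, whether the two sets intersect, with error probability at
most `1 / 400`, and which has at most `s` bits in which answers enter, satisfies
`N ^ 2 ≤ 10 ^ 15 * t ^ 8 * (s + 1)`. -/
theorem result (N t : ℕ) (ht : 1 ≤ t) : ∃ k u : ℕ, 2 * k * u ≤ N ∧
    ∀ (s : ℕ) (Ω : Type) [Fintype Ω] (p : Ω → ℝ) (D : Ω → DS k u),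
      (∀ ω, (D ω).space ≤ s) → Solves p D t →
      (N : ℝ) ^ 2 ≤ 10 ^ 15 * (t : ℝ) ^ 8 * (s + 1) :=
  main N t ht

end Pool.Agent.Results.MP_f326ae_lc.LinearTables
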