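import Mathlib
import Pool.Agent.N606.SI.Final

set_option autoImplicit false

namespace Pool.Agent.Results.MP_f326ae_lc.OneExponent

open Pool.Agent.N606.SI

/-- One exponent suffices, in the cell probe model (`Pool.Agent.N606.SI`). First part, the transfer
principle: for `T₀ ≤ T₁` and `M * T₁ ≤ N * T₀`, a structure for families of total size `M` with query
time `C * (T₀ + op)` and `S₀` cells yields one for families of total size `N` with query time
`(4 * C + 60) * (T₁ + op)` and `S` cells, where `S * T₁ / N ^ 2` is at most `3280` times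
`(S₀ + M) * T₀ / M ^ 2`. Second part, its consequence: let `Tstar` be any function with
`N ^ δ ≤ Tstar N ≤ N ^ (1 - δ)` on a set `A` of sizes which meets all the intervals `[x, x ^ K]` with
large `x`. The conjectured bound `S = Ω~(N ^ 2 / T)` holds for all functions `T` and all sizes if and
only if it holds for the single function `Tstar` and the sizes in `A`. For instance `Tstar` may be
`Nat.sqrt` and `A` may be the set of the numbers `4 ^ 2 ^ n`. -/
theorem result :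
    (∀ β C M N T₀ T₁ S₀ : ℕ, 1 ≤ β → 4 ≤ M → 1 ≤ T₀ → T₀ ≤ T₁ → M * T₁ ≤ N * T₀ →
      HasStructure β C M T₀ S₀ → ∃ S : ℕ, HasStructure β (4 * C + 60) N T₁ S ∧
        S * T₁ * M ^ 2 ≤ 3280 * N ^ 2 * T₀ * (S₀ + M)) ∧
    (∀ (A : Set ℕ) (K : ℕ) (δ : ℝ) (Tstar : ℕ → ℕ),
      (∃ x₀ : ℕ, ∀ x ≥ x₀, ∃ N ∈ A, x ≤ N ∧ N ≤ x ^ K) → 0 < δ →
      (∀ N ∈ A, (N : ℝ) ^ δ ≤ Tstar N ∧ Tstar N * (N : ℝ) ^ δ ≤ N) →
      ((∀ T : ℕ → ℕ, (∀ N, 1 ≤ T N) → Tradeoff Set.univ T) ↔ Tradeoff A Tstar)) :=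
  ⟨fun _ _ _ _ _ _ _ hβ hM hT₀ hTT hMN h => transfer hβ hM hT₀ hTT hMN h,
    fun _ _ _ _ hA hδ hT => oneExponent_iff hA hδ hT⟩

end Pool.Agent.Results.MP_f326ae_lc.OneExponent
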